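import Pool.Agent.TH930.FD.Law
import Pool.Agent.TH930.GH.MollerB

/-!
Wiggin's maps `F_D`: descent in logarithmic time, with the exponents of the random walk model, for
every `D ≥ 2`.
-/

set_option autoImplicit false

namespace Pool.Agent.Results.MP_5317dd_nt.LogTimeDescent

open Finset
open Pool.Agent.H319R3.GC (Adm Tm PP wd)
open Pool.Agent.TH930.GH (mq hq)
open Pool.Agent.TH930.FD (tm tm_zero tm_succ tm_add timeBad time_law)

/-- Wiggin's map `F_D`. -/
def F (D x : ℕ) : ℕ :=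
  if x % D = 0 then x / D
  else if x % D = D - 1 then (D + 1) * x + 1
  else (D + 1) * x - x % D

/-- `n` reaches some `F_D^k(n) ≤ y` with `k ≤ B log (n / F_D^k(n))` -/
def Descends (D : ℕ) (B y : ℝ) (n : ℕ) : Prop :=
  ∃ k : ℕ, (((F D)^[k] n : ℕ) : ℝ) ≤ y ∧ (k : ℝ) ≤ B * Real.log ((n : ℝ) / ((F D)^[k] n : ℕ))

/-- for all `x ≥ 2` and `y ≥ 1` all but `C (log x)^(D+3) x / y^c` of the `n ≤ x` reach some
`F_D^k(n) ≤ y` with `k ≤ B log (n / F_D^k(n))` -/
def Law (D : ℕ) (B c : ℝ) : Prop := ∃ C : ℝ, 0 < C ∧ ∀ x y : ℝ, 2 ≤ x → 1 ≤ y →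
  ({n : ℕ | 1 ≤ n ∧ (n : ℝ) ≤ x ∧ ¬ Descends D B y n}.ncard : ℝ) ≤
    C * Real.log x ^ (D + 3) * (x / y ^ c)

/-! ### the accelerated map -/

/-- multipliers -/
def mD (D : ℕ) : ℕ → ℤ := fun i => if i = 0 then 1 else (D : ℤ) + 1

/-- offsets -/
def rD (D : ℕ) : ℕ → ℤ := fun i => if i = 0 then 0 else if i = D - 1 then -1 else (i : ℤ)

/-- times -/
def wD : ℕ → ℝ := fun i => if i = 0 then 1 else 2

theorem pow_lt (D : ℕ) (hD : 1 ≤ D) : (D + 2) ^ D < (D + 1) ^ (D + 1) := by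
  rcases Nat.lt_or_ge D 2 with h | h
  · have : D = 1 := by omega
    subst this; norm_num
  · have hDR : (2 : ℝ) ≤ D := by exact_mod_cast h
    have h1 : (1 + 1 / ((D : ℝ) + 1)) ^ D ≤ Real.exp 1 := by
      have h2 : 1 + 1 / ((D : ℝ) + 1) ≤ Real.exp (1 / ((D : ℝ) + 1)) := by
        have := Real.add_one_le_exp (1 / ((D : ℝ) + 1)); linarith
      calc (1 + 1 / ((D : ℝ) + 1)) ^ D ≤ Real.exp (1 / ((D : ℝ) + 1)) ^ D :=
            pow_le_pow_left₀ (by positivity) h2 D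
        _ = Real.exp (D * (1 / ((D : ℝ) + 1))) := by rw [← Real.exp_nat_mul]
        _ ≤ Real.exp 1 := by
          apply Real.exp_le_exp.2
          rw [mul_one_div, div_le_one (by positivity)]
          linarith
    have h3 : Real.exp 1 < 3 := by
      have := Real.exp_one_lt_d9; linarith
    have h4 : ((D : ℝ) + 2) ^ D < ((D : ℝ) + 1) ^ (D + 1) := by
      have e : (D : ℝ) + 2 = ((D : ℝ) + 1) * (1 + 1 / ((D : ℝ) + 1)) := by
        field_simp; ring
      rw [e, mul_pow, pow_succ]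
      apply mul_lt_mul_of_pos_left _ (by positivity)
      linarith
    exact_mod_cast h4

theorem pow_lt' (D : ℕ) (hD : 2 ≤ D) : (D + 1) ^ (D - 1) < D ^ D := by
  obtain ⟨e, rfl⟩ : ∃ e, D = e + 1 := ⟨D - 1, by omega⟩
  exact pow_lt e (by omega)

theorem mD_eq (D : ℕ) : mD D = mq (D + 1) := by
  funext i
  simp [mD, mq]

theorem adm' (D : ℕ) (hD : 2 ≤ D) : ∀ i < D, (D : ℤ) ∣ mq (D + 1) i * i - rD D i := by
  intro i hi
  rw [← mD_eq]
  simp only [mD, rD]
  split_ifs with h0 h1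
  · subst h0; simp
  · have : (i : ℤ) = (D : ℤ) - 1 := by omega
    rw [this]
    exact ⟨(D : ℤ), by ring⟩
  · exact ⟨i, by ring⟩

theorem cop' (D : ℕ) : Nat.Coprime (D + 1) D := by simp

theorem admD (D : ℕ) (hD : 2 ≤ D) : Adm D (mD D) (rD D) := by
  rw [mD_eq]
  exact Pool.Agent.TH930.GH.adm_mq hD (Nat.lt_succ_self D) (cop' D) (pow_lt' D hD) (adm' D hD)

/-- one step of the accelerated map is one or two steps of `F_D` -/
theorem F_Tm (D : ℕ) (hD : 2 ≤ D) (n : ℕ) (hn : 1 ≤ n) :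
    ∃ i : ℕ, (i : ℝ) = wD ((n : ℤ) % D).toNat ∧ 1 ≤ (F D)^[i] n ∧
      Tm D (mD D) (rD D) (n : ℤ) = (((F D)^[i] n : ℕ) : ℤ) := by
  have hD0 : (0 : ℤ) < D := by exact_mod_cast (by omega : 0 < D)
  have hmod : ((n : ℤ) % (D : ℤ)).toNat = n % D := by
    rw [← Int.natCast_mod, Int.toNat_natCast]
  obtain ⟨q, j, hj, rfl⟩ : ∃ q j, j < D ∧ n = D * q + j :=
    ⟨n / D, n % D, Nat.mod_lt _ (by omega), (Nat.div_add_mod n D).symm⟩
  have hmj : (D * q + j) % D = j := by rw [Nat.mul_add_mod, Nat.mod_eq_of_lt hj]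
  rw [hmj] at hmod
  unfold Tm
  rw [hmod]
  have hFm : ∀ t : ℕ, F D (D * t) = t := by
    intro t
    unfold F
    rw [if_pos (Nat.mul_mod_right D t), Nat.mul_div_cancel_left _ (by omega)]
  rcases Nat.eq_zero_or_pos j with h0 | h0
  · subst h0
    refine ⟨1, by simp [wD], ?_, ?_⟩
    · rw [Function.iterate_one, Nat.add_zero, hFm]
      rcases Nat.eq_zero_or_pos q with h | h
      · subst h; simp at hn
      · exact h
    · rw [Function.iterate_one, Nat.add_zero, hFm]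
      simp only [mD, rD, if_true]
      push_cast
      rw [one_mul, sub_zero, Int.mul_ediv_cancel_left _ hD0.ne']
  · by_cases h1 : j = D - 1
    · have hF : F D (D * q + j) = D * (D * (q + 1) + q) := by
        unfold F
        rw [hmj, if_neg (by omega), if_pos h1, h1]
        obtain ⟨d, rfl⟩ : ∃ d, D = d + 1 := ⟨D - 1, by omega⟩
        simp only [Nat.add_sub_cancel]
        ring
      refine ⟨2, by rw [wD, if_neg (by omega)]; norm_num, ?_, ?_⟩
      · rw [Function.iterate_succ_apply, Function.iterate_one, hF, hFm]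
        have : 1 ≤ D * (q + 1) := Nat.mul_pos (by omega) (by omega)
        omega
      · rw [Function.iterate_succ_apply, Function.iterate_one, hF, hFm]
        simp only [mD, rD]
        rw [if_neg (by omega), if_neg (by omega), if_pos h1]
        have hjz : (j : ℤ) = D - 1 := by omega
        push_cast
        rw [hjz]
        have e : ((D : ℤ) + 1) * (D * q + (D - 1)) - -1 = D * (D * (q + 1) + q) := by ring
        rw [e, Int.mul_ediv_cancel_left _ hD0.ne']
    · have hF : F D (D * q + j) = D * (D * q + j + q) := by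
        unfold F
        rw [hmj, if_neg (by omega), if_neg h1]
        have : (D + 1) * (D * q + j) = D * (D * q + j + q) + j := by ring
        omega
      refine ⟨2, by rw [wD, if_neg (by omega)]; norm_num, ?_, ?_⟩
      · rw [Function.iterate_succ_apply, Function.iterate_one, hF, hFm]
        omega
      · rw [Function.iterate_succ_apply, Function.iterate_one, hF, hFm]
        simp only [mD, rD]
        rw [if_neg (by omega), if_neg (by omega), if_neg h1]
        push_cast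
        have e : ((D : ℤ) + 1) * (D * q + j) - j = D * (D * q + j + q) := by ring
        rw [e, Int.mul_ediv_cancel_left _ hD0.ne']

theorem F_Tm_iter (D : ℕ) (hD : 2 ≤ D) (n : ℕ) (hn : 1 ≤ n) (k : ℕ) :
    ∃ i : ℕ, (i : ℝ) = tm D (mD D) (rD D) wD k (n : ℤ) ∧ 1 ≤ (F D)^[i] n ∧
      (Tm D (mD D) (rD D))^[k] (n : ℤ) = (((F D)^[i] n : ℕ) : ℤ) := by
  induction k with
  | zero => exact ⟨0, by simp [tm_zero], hn, rfl⟩
  | succ k ih =>
    obtain ⟨i, h0, h1, h2⟩ := ih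
    obtain ⟨j, h5, h3, h4⟩ := F_Tm D hD _ h1
    rw [← Function.iterate_add_apply] at h3 h4
    refine ⟨j + i, ?_, h3, by rw [Function.iterate_succ_apply', h2, h4]⟩
    rw [add_comm k 1, tm_add, h2, tm_succ, tm_zero, add_zero]
    push_cast
    rw [h0, h5, add_comm]

/-! ### the parameters -/

lemma right_cont (D : ℕ) (s t₀ A : ℝ)
    (h : Real.exp (s * t₀) + ((D : ℝ) - 1) * ((D : ℝ) + 1) ^ s * Real.exp (2 * s * t₀) < A) :
    ∃ t : ℝ, t₀ < t ∧ Real.exp (s * t) + ((D : ℝ) - 1) * ((D : ℝ) + 1) ^ s * Real.exp (2 * s * t) < A := by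
  have hc : Continuous (fun t : ℝ => Real.exp (s * t) +
      ((D : ℝ) - 1) * ((D : ℝ) + 1) ^ s * Real.exp (2 * s * t)) := by fun_prop
  have h1 : ∀ᶠ t in nhds t₀, Real.exp (s * t) +
      ((D : ℝ) - 1) * ((D : ℝ) + 1) ^ s * Real.exp (2 * s * t) < A :=
    hc.continuousAt.eventually_lt continuousAt_const h
  have h2 : ∀ᶠ t in nhdsWithin t₀ (Set.Ioi t₀), Real.exp (s * t) +
      ((D : ℝ) - 1) * ((D : ℝ) + 1) ^ s * Real.exp (2 * s * t) < A := nhdsWithin_le_nhds h1
  obtain ⟨t, ht1, ht2⟩ := (h2.and self_mem_nhdsWithin).exists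
  exact ⟨t, ht2, ht1⟩

lemma sumD (D : ℕ) (hD : 2 ≤ D) (s θ : ℝ) :
    ∑ j ∈ range D, |(mD D j : ℝ)| ^ s * Real.exp (θ * wD j) =
      Real.exp θ + ((D : ℝ) - 1) * ((D : ℝ) + 1) ^ s * Real.exp (2 * θ) := by
  obtain ⟨e, rfl⟩ : ∃ e, D = e + 1 := ⟨D - 1, by omega⟩
  rw [sum_range_succ']
  have h1 : ∀ j ∈ range e, |(mD (e + 1) (j + 1) : ℝ)| ^ s * Real.exp (θ * wD (j + 1)) =
      (((e + 1 : ℕ) : ℝ) + 1) ^ s * Real.exp (2 * θ) := by
    intro j _
    have h2 : (mD (e + 1) (j + 1) : ℝ) = ((e + 1 : ℕ) : ℝ) + 1 := by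
      simp [mD]
    have h3 : wD (j + 1) = 2 := by simp [wD]
    rw [h2, h3, abs_of_nonneg (by positivity), mul_comm θ 2]
  rw [sum_congr rfl h1, sum_const, card_range, nsmul_eq_mul]
  have h4 : mD (e + 1) 0 = 1 := by simp [mD]
  have h5 : wD 0 = 1 := by simp [wD]
  rw [h4, h5]
  push_cast
  rw [abs_one, Real.one_rpow]
  ring_nf

theorem law_of (D : ℕ) (hD : 2 ≤ D) {B s c : ℝ} (hB : 0 < B) (hs : 0 ≤ s) (hc0 : 0 ≤ c) (hc1 : c ≤ 1)
    (h : Real.exp (s / B) + ((D : ℝ) - 1) * ((D : ℝ) + 1) ^ s * Real.exp (2 * s / B) <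
      (D : ℝ) ^ (s + 1 - c)) : Law D B c := by
  obtain ⟨t, ht0, ht1⟩ := right_cont D s (1 / B) ((D : ℝ) ^ (s + 1 - c)) (by
    rw [mul_one_div, mul_one_div]; exact h)
  have ht : 0 < t := lt_trans (by positivity) ht0
  have hBB : 1 / t < B := by
    rw [div_lt_iff₀ ht]
    rw [div_lt_iff₀ hB] at ht0
    linarith
  obtain ⟨C, hC, hlaw⟩ := time_law (admD D hD) (ω := wD) (fun i _ => by
      unfold wD; split_ifs <;> norm_num) (B₁ := 1 / t) (B := B) (s := s) (c := c) (by positivity) hBB hs hc0 hc1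
    (by
      have e : s / (1 / t) = s * t := by rw [div_div_eq_mul_div, div_one]
      rw [e, sumD D hD]
      have e2 : s + (1 - c) = s + 1 - c := by ring
      rw [e2]
      have e3 : 2 * (s * t) = 2 * s * t := by ring
      rw [e3]
      exact ht1.le)
  refine ⟨C, hC, fun x y hx hy => le_trans ?_ (hlaw x y hx hy)⟩
  have hfin : {n : ℤ | n ≠ 0 ∧ |(n : ℝ)| ≤ x ∧ timeBad D (mD D) (rD D) wD B y n}.Finite := by
    apply (Set.finite_Icc (-⌈x⌉) ⌈x⌉).subset
    rintro n ⟨-, hn, -⟩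
    have h1 := abs_le.1 hn
    have h2 := Int.le_ceil x
    rw [Set.mem_Icc]
    constructor
    · have : (-(⌈x⌉ : ℤ) : ℝ) ≤ n := by linarith
      exact_mod_cast this
    · have : (n : ℝ) ≤ (⌈x⌉ : ℤ) := by linarith
      exact_mod_cast this
  have hsub : ((fun n : ℕ => (n : ℤ)) '' {n : ℕ | 1 ≤ n ∧ (n : ℝ) ≤ x ∧ ¬ Descends D B y n}) ⊆
      {n : ℤ | n ≠ 0 ∧ |(n : ℝ)| ≤ x ∧ timeBad D (mD D) (rD D) wD B y n} := by
    rintro _ ⟨n, ⟨hn1, hnX, hn⟩, rfl⟩
    refine ⟨by simp only; omega, by simpa using hnX, ?_, ?_⟩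
    · intro k
      obtain ⟨i, _, hi1, hi⟩ := F_Tm_iter D hD n hn1 k
      simp only
      rw [hi]
      omega
    · rintro ⟨k, hk1, hk2⟩
      obtain ⟨i, hi0, hi1, hi⟩ := F_Tm_iter D hD n hn1 k
      simp only at hk1 hk2
      rw [hi, Int.cast_natCast, abs_of_nonneg (Nat.cast_nonneg _)] at hk1 hk2
      rw [Int.cast_natCast, abs_of_nonneg (Nat.cast_nonneg _)] at hk2
      rw [← hi0] at hk2
      apply hn
      refine ⟨i, hk1, ?_⟩
      have h1 : (0 : ℝ) < n := by exact_mod_cast hn1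
      have h2 : (0 : ℝ) < (((F D)^[i] n : ℕ) : ℝ) := by exact_mod_cast hi1
      rw [Real.log_div h1.ne' h2.ne']
      exact hk2
  have h2 := Set.ncard_le_ncard hsub hfin
  rw [Set.ncard_image_of_injective _ Nat.cast_injective] at h2
  exact_mod_cast h2

/-- the logarithm of the contraction, times `D` -/
lemma contr (D : ℕ) (hD : 2 ≤ D) : 0 < Real.log D - ((D : ℝ) - 1) * Real.log (1 + 1 / D) := by
  have hDR : (2 : ℝ) ≤ D := by exact_mod_cast hD
  have h1 : (((D + 1) ^ (D - 1) : ℕ) : ℝ) < ((D ^ D : ℕ) : ℝ) := by exact_mod_cast pow_lt' D hD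
  push_cast at h1
  have h2 := Real.log_lt_log (by positivity) h1
  rw [Real.log_pow, Real.log_pow, Nat.cast_sub (by omega), Nat.cast_one] at h2
  have h3 : Real.log (1 + 1 / (D : ℝ)) = Real.log ((D : ℝ) + 1) - Real.log D := by
    rw [← Real.log_div (by positivity) (by positivity)]
    congr 1
    field_simp
  rw [h3]
  nlinarith

lemma small_s {a b e : ℝ} (he : 0 ≤ e) (h : a + e * b < 0) :
    ∃ s : ℝ, 0 < s ∧ Real.exp (s * a) + e * Real.exp (s * b) < 1 + e := by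
  set A : ℝ := a ^ 2 + e * b ^ 2 + 1 with hA
  have hA0 : 0 < A := by positivity
  set N : ℝ := |a| + |b| + 1 with hN
  have hN0 : 0 < N := by positivity
  set s : ℝ := min (1 / N) (-(a + e * b) / A) with hs
  have hs0 : 0 < s := lt_min (by positivity) (div_pos (by linarith) hA0)
  have hs1 : s * N ≤ 1 := by
    have := min_le_left (1 / N) (-(a + e * b) / A)
    rw [← hs, le_div_iff₀ hN0] at this
    exact this
  have hs2 : s * A ≤ -(a + e * b) := by
    have := min_le_right (1 / N) (-(a + e * b) / A)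
    rw [← hs, le_div_iff₀ hA0] at this
    exact this
  have key : ∀ x : ℝ, |x| ≤ N → Real.exp (s * x) ≤ 1 + s * x + (s * x) ^ 2 := by
    intro x hx
    have h1 : |s * x| ≤ 1 := by
      rw [abs_mul, abs_of_pos hs0]
      exact (mul_le_mul_of_nonneg_left hx hs0.le).trans hs1
    have h2 := Real.abs_exp_sub_one_sub_id_le h1
    have := (abs_le.1 h2).2
    linarith
  have ka := key a (by rw [hN]; have := abs_nonneg b; linarith)
  have kb := key b (by rw [hN]; have := abs_nonneg a; linarith)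
  refine ⟨s, hs0, ?_⟩
  have h3 : Real.exp (s * a) + e * Real.exp (s * b) ≤
      1 + e + s * (a + e * b) + s ^ 2 * (a ^ 2 + e * b ^ 2) := by
    have := mul_le_mul_of_nonneg_left kb he
    nlinarith
  have h4 : s ^ 2 * (a ^ 2 + e * b ^ 2) < s * (-(a + e * b)) := by
    have h5 : s * (s * A) ≤ s * (-(a + e * b)) := mul_le_mul_of_nonneg_left hs2 hs0.le
    have h6 : s ^ 2 * (a ^ 2 + e * b ^ 2) = s * (s * A) - s ^ 2 := by rw [hA]; ring
    have h7 : 0 < s ^ 2 := by positivity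
    linarith
  linarith

theorem exists_c (D : ℕ) (hD : 2 ≤ D) {B : ℝ}
    (hB : (2 * (D : ℝ) - 1) / (Real.log D - ((D : ℝ) - 1) * Real.log (1 + 1 / D)) < B) :
    ∃ s c : ℝ, 0 < s ∧ 0 < c ∧ c ≤ 1 ∧
      Real.exp (s / B) + ((D : ℝ) - 1) * ((D : ℝ) + 1) ^ s * Real.exp (2 * s / B) < (D : ℝ) ^ (s + 1 - c) := by
  have hDR : (2 : ℝ) ≤ D := by exact_mod_cast hD
  have hD0 : (0 : ℝ) < D := by linarith
  have hld : 0 < Real.log D := Real.log_pos (by linarith)
  have hc0 := contr D hD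
  have hB0 : 0 < B := lt_trans (div_pos (by linarith) hc0) hB
  have h3 : Real.log (1 + 1 / (D : ℝ)) = Real.log ((D : ℝ) + 1) - Real.log D := by
    rw [← Real.log_div (by positivity) (by positivity)]
    congr 1
    field_simp
  obtain ⟨s, hs, hlt⟩ := small_s (a := 1 / B - Real.log D) (b := 2 / B + Real.log (1 + 1 / D))
    (e := (D : ℝ) - 1) (by linarith) (by
    rw [div_lt_iff₀ hc0] at hB
    have h4 : (2 * (D : ℝ) - 1) / B < Real.log D - ((D : ℝ) - 1) * Real.log (1 + 1 / D) := by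
      rw [div_lt_iff₀ hB0]; linarith
    have h5 : 1 / B - Real.log D + ((D : ℝ) - 1) * (2 / B + Real.log (1 + 1 / D)) =
        (2 * (D : ℝ) - 1) / B - (Real.log D - ((D : ℝ) - 1) * Real.log (1 + 1 / D)) := by
      field_simp; ring
    rw [h5]
    linarith)
  have h1D : 1 + ((D : ℝ) - 1) = D := by ring
  rw [h1D] at hlt
  set g : ℝ := Real.exp (s * (1 / B - Real.log D)) +
    ((D : ℝ) - 1) * Real.exp (s * (2 / B + Real.log (1 + 1 / D))) with hg
  have hg0 : 0 < g := by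
    have : 0 ≤ ((D : ℝ) - 1) * Real.exp (s * (2 / B + Real.log (1 + 1 / D))) :=
      mul_nonneg (by linarith) (Real.exp_pos _).le
    have := Real.exp_pos (s * (1 / B - Real.log D))
    linarith
  have hgl : Real.log g < Real.log D := Real.log_lt_log hg0 hlt
  set u : ℝ := Real.log g / Real.log D with hu
  have hu1 : u < 1 := by rw [hu, div_lt_one hld]; exact hgl
  set c : ℝ := min 1 ((1 - u) / 2) with hc
  have hcp : 0 < c := lt_min one_pos (by linarith)
  refine ⟨s, c, hs, hcp, min_le_left _ _, ?_⟩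
  have hDs : (0 : ℝ) < (D : ℝ) ^ s := Real.rpow_pos_of_pos hD0 _
  have e1 : Real.exp (s / B) + ((D : ℝ) - 1) * ((D : ℝ) + 1) ^ s * Real.exp (2 * s / B) = (D : ℝ) ^ s * g := by
    rw [hg, mul_add, h3]
    have e2 : (D : ℝ) ^ s = Real.exp (s * Real.log D) := by
      rw [Real.rpow_def_of_pos hD0, mul_comm]
    have e3 : ((D : ℝ) + 1) ^ s = Real.exp (s * Real.log ((D : ℝ) + 1)) := by
      rw [Real.rpow_def_of_pos (by positivity), mul_comm]
    rw [e2, e3, ← Real.exp_add]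
    have e4 : s * Real.log D + s * (1 / B - Real.log D) = s / B := by ring
    rw [e4]
    congr 1
    have e5 : Real.exp (s * Real.log D) * (((D : ℝ) - 1) *
        Real.exp (s * (2 / B + (Real.log ((D : ℝ) + 1) - Real.log D)))) =
        ((D : ℝ) - 1) * (Real.exp (s * Real.log D) *
          Real.exp (s * (2 / B + (Real.log ((D : ℝ) + 1) - Real.log D)))) := by ring
    rw [e5, ← Real.exp_add, mul_assoc, ← Real.exp_add]
    congr 2
    ring
  rw [e1]
  have e6 : (D : ℝ) ^ (s + 1 - c) = (D : ℝ) ^ s * (D : ℝ) ^ (1 - c) := by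
    rw [show s + 1 - c = s + (1 - c) by ring, Real.rpow_add hD0]
  rw [e6]
  apply mul_lt_mul_of_pos_left _ hDs
  have e7 : g = (D : ℝ) ^ u := by
    rw [Real.rpow_def_of_pos hD0, hu, mul_div_cancel₀ _ hld.ne', Real.exp_log hg0]
  rw [e7]
  apply Real.rpow_lt_rpow_of_exponent_lt (by linarith)
  have := min_le_right 1 ((1 - u) / 2)
  rw [← hc] at this
  linarith

theorem entropy_case (D : ℕ) (hD : 2 ≤ D) {c : ℝ}
    (hc : c < 1 - Real.qaryEntropy D (Real.log D / Real.log (D + 1)) / Real.log D) :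
    ∃ B s : ℝ, 0 < B ∧ 0 ≤ s ∧
      Real.exp (s / B) + ((D : ℝ) - 1) * ((D : ℝ) + 1) ^ s * Real.exp (2 * s / B) < (D : ℝ) ^ (s + 1 - c) := by
  have hDR : (2 : ℝ) ≤ D := by exact_mod_cast hD
  have hD0 : (0 : ℝ) < D := by linarith
  obtain ⟨s, hs, h⟩ := Pool.Agent.TH930.GH.exists_s hD (Nat.lt_succ_self D) (pow_lt' D hD)
  have hh : hq D (D + 1) = Real.qaryEntropy D (Real.log D / Real.log (D + 1)) / Real.log D := by
    unfold hq Pool.Agent.TH930.GH.kq
    push_cast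
    rfl
  rw [← hh] at hc
  have hDs : (0 : ℝ) < (D : ℝ) ^ s := Real.rpow_pos_of_pos hD0 _
  push_cast at h
  rw [div_eq_iff hDs.ne', ← Real.rpow_add hD0] at h
  have h1 : Real.exp (s * 0) + ((D : ℝ) - 1) * ((D : ℝ) + 1) ^ s * Real.exp (2 * s * 0) <
      (D : ℝ) ^ (s + 1 - c) := by
    rw [mul_zero, mul_zero, Real.exp_zero, mul_one, h]
    apply Real.rpow_lt_rpow_of_exponent_lt (by linarith)
    linarith
  obtain ⟨t, ht0, ht1⟩ := right_cont D s 0 _ h1
  refine ⟨1 / t, s, by positivity, hs.le, ?_⟩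
  have e1 : s / (1 / t) = s * t := by rw [div_div_eq_mul_div, div_one]
  have e2 : 2 * s / (1 / t) = 2 * s * t := by rw [div_div_eq_mul_div, div_one]
  rw [e1, e2]
  exact ht1

/-- Let `D ≥ 2`, and let `h(D)` be the `D`-ary entropy of `log D / log (D + 1)`, in base `D`.

(1) If `B > 0`, `s ≥ 0`, `0 ≤ c ≤ 1` and `e^(s/B) + (D - 1) (D + 1)^s e^(2s/B) < D^(s + 1 - c)`, then there is
`C` such that for all `x ≥ 2`, `y ≥ 1` all but `C (log x)^(D+3) x / y^c` of the `n ≤ x` reach some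
`F_D^k(n) ≤ y` with `k ≤ B log (n / F_D^k(n))`.

(2) For every `B > (2D - 1) / (log D - (D - 1) log (1 + 1/D))` this holds for some `c > 0`.

(3) For every `c` with `0 ≤ c < 1 - h(D)` this holds for some `B > 0`. -/
theorem result (D : ℕ) (hD : 2 ≤ D) :
    (∀ B s c : ℝ, 0 < B → 0 ≤ s → 0 ≤ c → c ≤ 1 →
      Real.exp (s / B) + ((D : ℝ) - 1) * ((D : ℝ) + 1) ^ s * Real.exp (2 * s / B) < (D : ℝ) ^ (s + 1 - c) →
      Law D B c) ∧
    (∀ B : ℝ, (2 * (D : ℝ) - 1) / (Real.log D - ((D : ℝ) - 1) * Real.log (1 + 1 / D)) < B →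
      ∃ c : ℝ, 0 < c ∧ Law D B c) ∧
    (∀ c : ℝ, 0 ≤ c → c < 1 - Real.qaryEntropy D (Real.log D / Real.log (D + 1)) / Real.log D →
      ∃ B : ℝ, 0 < B ∧ Law D B c) := by
  refine ⟨fun B s c hB hs hc0 hc1 h => law_of D hD hB hs hc0 hc1 h, fun B hB => ?_, fun c hc0 hc => ?_⟩
  · obtain ⟨s, c, hs, hc, hc1, h⟩ := exists_c D hD hB
    have hDR : (2 : ℝ) ≤ D := by exact_mod_cast hD
    have hB0 : 0 < B := lt_trans (div_pos (by linarith) (contr D hD)) hB
    exact ⟨c, hc, law_of D hD hB0 hs.le hc.le hc1 h⟩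
  · obtain ⟨B, s, hB, hs, h⟩ := entropy_case D hD hc
    have h1 : 0 < hq D (D + 1) := (Pool.Agent.TH930.GH.hq_lt hD (Nat.lt_succ_self D) (pow_lt' D hD)).1
    have hh : hq D (D + 1) = Real.qaryEntropy D (Real.log D / Real.log (D + 1)) / Real.log D := by
      unfold hq Pool.Agent.TH930.GH.kq
      push_cast
      rfl
    rw [hh] at h1
    exact ⟨B, hB, law_of D hD hB hs hc0 (by linarith) h⟩

end Pool.Agent.Results.MP_5317dd_nt.LogTimeDescent
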