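import Pool.Agent.TH930.GH.MollerB
import Pool.Agent.TH930.GH.Leigh

/-!
Wiggin's maps `F_D`: power saving with an exponent beyond the entropy exponent, for every `D ≥ 2`.
-/

set_option autoImplicit false

namespace Pool.Agent.Results.MP_5317dd_nt.SharpPowerSaving

open Pool.Agent.H319R3.GC (Adm Tm PP)
open Pool.Agent.TH930.GH (mq hq)

/-- Wiggin's map `F_D`. -/
def F (D x : ℕ) : ℕ :=
  if x % D = 0 then x / D
  else if x % D = D - 1 then (D + 1) * x + 1
  else (D + 1) * x - x % D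

/-- multipliers -/
def mD (D : ℕ) : ℕ → ℤ := fun i => if i = 0 then 1 else (D : ℤ) + 1

/-- offsets -/
def rD (D : ℕ) : ℕ → ℤ := fun i => if i = 0 then 0 else if i = D - 1 then -1 else (i : ℤ)

theorem pow_lt (D : ℕ) (hD : 1 ≤ D) : (D + 2) ^ D < (D + 1) ^ (D + 1) := by
  rcases Nat.lt_or_ge D 2 with h | h
  · have : D = 1 := by omega
    subst this; norm_num
  · have hDR : (2 : ℝ) ≤ D := by exact_mod_cast h
    have h1 : (1 + 1 / ((D : ℝ) + 1)) ^ D ≤ Real.exp 1 := by
      have h2 : 1 + 1 / ((D : ℝ) + 1) ≤ Real.exp (1 / ((D : ℝ) + 1)) := by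
        have := Real.add_one_le_exp (1 / ((D : ℝ) + 1)); linarith
      calc (1 + 1 / ((D : ℝ) + 1)) ^ D ≤ Real.exp (1 / ((D : ℝ) + 1)) ^ D :=
            pow_le_pow_left₀ (by positivity) h2 D
        _ = Real.exp (D * (1 / ((D : ℝ) + 1))) := by rw [← Real.exp_nat_mul]
        _ ≤ Real.exp 1 := by
          apply Real.exp_le_exp.2
          rw [mul_one_div, div_le_one (by positivity)]
          linarith
    have h3 : Real.exp 1 < 3 := by
      have := Real.exp_one_lt_d9; linarith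
    have h4 : ((D : ℝ) + 2) ^ D < ((D : ℝ) + 1) ^ (D + 1) := by
      have e : (D : ℝ) + 2 = ((D : ℝ) + 1) * (1 + 1 / ((D : ℝ) + 1)) := by
        field_simp; ring
      rw [e, mul_pow, pow_succ]
      apply mul_lt_mul_of_pos_left _ (by positivity)
      linarith
    exact_mod_cast h4

/-- the terms of the orbit of the accelerated map are terms of the orbit of `F_D` -/
theorem F_Tm (D : ℕ) (hD : 2 ≤ D) (n : ℕ) (hn : 1 ≤ n) :
    ∃ i : ℕ, 1 ≤ (F D)^[i] n ∧ Tm D (mD D) (rD D) (n : ℤ) = (((F D)^[i] n : ℕ) : ℤ) := by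
  have hD0 : (0 : ℤ) < D := by exact_mod_cast (by omega : 0 < D)
  have hmod : ((n : ℤ) % (D : ℤ)).toNat = n % D := by
    rw [← Int.natCast_mod, Int.toNat_natCast]
  obtain ⟨q, j, hj, rfl⟩ : ∃ q j, j < D ∧ n = D * q + j :=
    ⟨n / D, n % D, Nat.mod_lt _ (by omega), (Nat.div_add_mod n D).symm⟩
  have hmj : (D * q + j) % D = j := by rw [Nat.mul_add_mod, Nat.mod_eq_of_lt hj]
  rw [hmj] at hmod
  unfold Tm
  rw [hmod]
  have hFm : ∀ t : ℕ, F D (D * t) = t := by
    intro t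
    unfold F
    rw [if_pos (Nat.mul_mod_right D t), Nat.mul_div_cancel_left _ (by omega)]
  rcases Nat.eq_zero_or_pos j with h0 | h0
  · subst h0
    refine ⟨1, ?_, ?_⟩
    · rw [Function.iterate_one, Nat.add_zero, hFm]
      rcases Nat.eq_zero_or_pos q with h | h
      · subst h; simp at hn
      · exact h
    · rw [Function.iterate_one, Nat.add_zero, hFm]
      simp only [mD, rD, if_true]
      push_cast
      rw [one_mul, sub_zero, Int.mul_ediv_cancel_left _ hD0.ne']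
  · by_cases h1 : j = D - 1
    · have hF : F D (D * q + j) = D * (D * (q + 1) + q) := by
        unfold F
        rw [hmj, if_neg (by omega), if_pos h1, h1]
        obtain ⟨d, rfl⟩ : ∃ d, D = d + 1 := ⟨D - 1, by omega⟩
        simp only [Nat.add_sub_cancel]
        ring
      refine ⟨2, ?_, ?_⟩
      · rw [Function.iterate_succ_apply, Function.iterate_one, hF, hFm]
        have : 1 ≤ D * (q + 1) := Nat.mul_pos (by omega) (by omega)
        omega
      · rw [Function.iterate_succ_apply, Function.iterate_one, hF, hFm]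
        simp only [mD, rD]
        rw [if_neg (by omega), if_neg (by omega), if_pos h1]
        have hjz : (j : ℤ) = D - 1 := by omega
        push_cast
        rw [hjz]
        have e : ((D : ℤ) + 1) * (D * q + (D - 1)) - -1 = D * (D * (q + 1) + q) := by ring
        rw [e, Int.mul_ediv_cancel_left _ hD0.ne']
    · have hF : F D (D * q + j) = D * (D * q + j + q) := by
        unfold F
        rw [hmj, if_neg (by omega), if_neg h1]
        have : (D + 1) * (D * q + j) = D * (D * q + j + q) + j := by ring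
        omega
      refine ⟨2, ?_, ?_⟩
      · rw [Function.iterate_succ_apply, Function.iterate_one, hF, hFm]
        omega
      · rw [Function.iterate_succ_apply, Function.iterate_one, hF, hFm]
        simp only [mD, rD]
        rw [if_neg (by omega), if_neg (by omega), if_neg h1]
        push_cast
        have e : ((D : ℤ) + 1) * (D * q + j) - j = D * (D * q + j + q) := by ring
        rw [e, Int.mul_ediv_cancel_left _ hD0.ne']

theorem F_Tm_iter (D : ℕ) (hD : 2 ≤ D) (n : ℕ) (hn : 1 ≤ n) (k : ℕ) :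
    ∃ i : ℕ, 1 ≤ (F D)^[i] n ∧ (Tm D (mD D) (rD D))^[k] (n : ℤ) = (((F D)^[i] n : ℕ) : ℤ) := by
  induction k with
  | zero => exact ⟨0, hn, rfl⟩
  | succ k ih =>
    obtain ⟨i, h1, h2⟩ := ih
    obtain ⟨j, h3, h4⟩ := F_Tm D hD _ h1
    rw [← Function.iterate_add_apply] at h3 h4
    exact ⟨j + i, h3, by rw [Function.iterate_succ_apply', h2, h4]⟩

theorem mD_eq (D : ℕ) : mD D = mq (D + 1) := by
  funext i
  simp [mD, mq]

theorem pow_lt' (D : ℕ) (hD : 2 ≤ D) : (D + 1) ^ (D - 1) < D ^ D := by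
  obtain ⟨e, rfl⟩ : ∃ e, D = e + 1 := ⟨D - 1, by omega⟩
  exact pow_lt e (by omega)

theorem adm' (D : ℕ) (hD : 2 ≤ D) : ∀ i < D, (D : ℤ) ∣ mq (D + 1) i * i - rD D i := by
  intro i hi
  rw [← mD_eq]
  simp only [mD, rD]
  split_ifs with h0 h1
  · subst h0; simp
  · have : (i : ℤ) = (D : ℤ) - 1 := by omega
    rw [this]
    exact ⟨(D : ℤ), by ring⟩
  · exact ⟨i, by ring⟩

theorem cop' (D : ℕ) : Nat.Coprime (D + 1) D := by simp

/-- Let `h(D)` be the `D`-ary entropy of `log D / log (D + 1)`, in base `D`. For every `D ≥ 2` there are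
`c > 1 - h(D)` and `C` such that for all `X, y ≥ 1` at most `C X / y ^ c` of the integers `1 ≤ n ≤ X` have an
orbit under `F_D` with all terms larger than `y`. -/
theorem result (D : ℕ) (hD : 2 ≤ D) :
    ∃ c : ℝ, 0 < c ∧ 1 - Real.qaryEntropy D (Real.log D / Real.log (D + 1)) / Real.log D < c ∧
      ∃ C : ℝ, 0 < C ∧ ∀ X y : ℝ, 1 ≤ X → 1 ≤ y →
        ({n : ℕ | 1 ≤ n ∧ (n : ℝ) ≤ X ∧ ∀ k : ℕ, y < (((F D)^[k] n : ℕ) : ℝ)}.ncard : ℝ)
          ≤ C * X / y ^ c := by
  obtain ⟨h0, h1⟩ := Pool.Agent.TH930.GH.hq_lt hD (Nat.lt_succ_self D) (pow_lt' D hD)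
  obtain ⟨c, hcc, h⟩ := Pool.Agent.TH930.GH.moller_power hD (Nat.lt_succ_self D) (cop' D) (pow_lt' D hD)
  refine ⟨c, by linarith, ?_, ?_⟩
  · have : hq D (D + 1) = Real.qaryEntropy D (Real.log D / Real.log (D + 1)) / Real.log D := by
      unfold hq Pool.Agent.TH930.GH.kq
      push_cast
      rfl
    rw [← this]
    exact hcc
  obtain ⟨C, hC, h⟩ := h _ (adm' D hD)
  rw [← mD_eq] at h
  refine ⟨C, hC, fun X y hX hy => le_trans ?_ (h X y hX hy)⟩
  have hfin : {x : ℤ | |(x : ℝ)| ≤ X ∧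
      ∀ k : ℕ, y < |(((Tm D (mD D) (rD D))^[k] x : ℤ) : ℝ)|}.Finite := by
    apply (Set.finite_Icc (-⌈X⌉) ⌈X⌉).subset
    rintro x ⟨hx, -⟩
    have h1 := abs_le.1 hx
    have h2 := Int.le_ceil X
    rw [Set.mem_Icc]
    constructor
    · have : (-(⌈X⌉ : ℤ) : ℝ) ≤ x := by linarith
      exact_mod_cast this
    · have : (x : ℝ) ≤ (⌈X⌉ : ℤ) := by linarith
      exact_mod_cast this
  have hsub : ((fun n : ℕ => (n : ℤ)) '' {n : ℕ | 1 ≤ n ∧ (n : ℝ) ≤ X ∧
      ∀ k : ℕ, y < (((F D)^[k] n : ℕ) : ℝ)}) ⊆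
      {x : ℤ | |(x : ℝ)| ≤ X ∧ ∀ k : ℕ, y < |(((Tm D (mD D) (rD D))^[k] x : ℤ) : ℝ)|} := by
    rintro _ ⟨n, ⟨hn1, hnX, hn⟩, rfl⟩
    refine ⟨?_, fun k => ?_⟩
    · simpa using hnX
    · simp only
      obtain ⟨i, _, hi⟩ := F_Tm_iter D hD n hn1 k
      rw [hi, Int.cast_natCast, abs_of_nonneg (Nat.cast_nonneg _)]
      exact hn i
  have h2 := Set.ncard_le_ncard hsub hfin
  rw [Set.ncard_image_of_injective _ Nat.cast_injective] at h2
  exact_mod_cast h2

end Pool.Agent.Results.MP_5317dd_nt.SharpPowerSaving
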