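import Mathlib
import Pool.Agent.TH932.S2.All
import Pool.Agent.TH932.S2.F.Fin
import Pool.Agent.TH932.S2.G.Ss
import Pool.Agent.TH932.S2.G.Desc

set_option autoImplicit false

/-!
# The block complexity of the residue sequences of the orbits of Wiggin's maps
-/

namespace Pool.Agent.Results.MP_5317dd_nt.SuperlinearDescent

open Filter Topology Pool.Agent.TH932.Words Pool.Agent.TH932.S2

/-- Wiggin's map `F_D` -/
def F (D x : ℕ) : ℕ :=
  if x % D = 0 then x / D else if x % D = D - 1 then (D + 1) * x + 1 else (D + 1) * x - x % D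

/-- the number of different blocks of `n` consecutive residues modulo `D` among the first `H`
terms of the orbit of `x` under `F_D` -/
noncomputable def blocksUpTo (D x H n : ℕ) : ℕ :=
  ((fun i : ℕ => fun j : Fin n => (((F D)^[i + j] x : ℕ) : ZMod D)) '' {i | i + n ≤ H}).ncard

/-- the number of different blocks of `n` consecutive residues modulo `D` in the orbit of `x`
under `F_D` -/
noncomputable def blocks (D x n : ℕ) : ℕ :=
  (Set.range fun i : ℕ => fun j : Fin n => (((F D)^[i + j] x : ℕ) : ZMod D)).ncard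

section
variable {D : ℕ}

/-- exponents -/
def dl (D : ℕ) (a : ZMod D) : ℕ := if a = 0 then 0 else 1

/-- constant terms -/
def bt (D : ℕ) (a : ZMod D) : ℤ := if a = 0 then 0 else if a = -1 then 1 else -(a.val : ℤ)

lemma bt_abs (hD : 2 ≤ D) (a : ZMod D) : |bt D a| ≤ ((D + 1 : ℕ) : ℤ) := by
  have : NeZero D := ⟨by omega⟩
  have h := a.val_lt
  unfold bt
  split_ifs
  · simp; omega
  · simp
  · rw [abs_neg, abs_of_nonneg (by positivity)]
    push_cast
    omega

/-- the affine maps -/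
def T (hD : 2 ≤ D) : F.Dt (ZMod D) where
  p := D
  q := D + 1
  M := D + 1
  δ := dl D
  β := bt D
  hp := hD
  hq := by omega
  hpq := ⟨1, -1, by push_cast; ring⟩
  hpM := by omega
  hqM := by
    intro a; unfold dl; split_ifs
    · simp
    · simp
  hβM := bt_abs hD

/-- residues -/
def f (D : ℕ) (y : ℤ) : ZMod D := ((y : ℤ) : ZMod D)

/-- the shortened map -/
def G (D : ℕ) (y : ℤ) : ℤ := (((D : ℤ) + 1) ^ dl D (f D y) * y + bt D (f D y)) / D

lemma dvd_G (hD : 2 ≤ D) (y : ℤ) : (D : ℤ) ∣ ((D : ℤ) + 1) ^ dl D (f D y) * y + bt D (f D y) := by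
  have : NeZero D := ⟨by omega⟩
  rw [← ZMod.intCast_zmod_eq_zero_iff_dvd]
  unfold dl bt f
  by_cases h0 : ((y : ℤ) : ZMod D) = 0
  · rw [if_pos h0, if_pos h0]
    push_cast
    simp [h0]
  · rw [if_neg h0, if_neg h0]
    by_cases h1 : ((y : ℤ) : ZMod D) = -1
    · rw [if_pos h1]
      push_cast
      rw [h1]
      simp
    · rw [if_neg h1]
      push_cast
      rw [ZMod.natCast_zmod_val]
      simp

lemma G_mul (hD : 2 ≤ D) (y : ℤ) :
    (D : ℤ) * G D y = ((D : ℤ) + 1) ^ dl D (f D y) * y + bt D (f D y) := by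
  unfold G
  exact Int.mul_ediv_cancel' (dvd_G hD y)

lemma mp (hD : 2 ≤ D) : F.Mp (T hD) 1 (f D) (G D) where
  hd := isCoprime_one_left
  hG := by
    intro y
    change (D : ℤ) * G D y = ((D + 1 : ℕ) : ℤ) ^ dl D (f D y) * y + 1 * bt D (f D y)
    rw [G_mul hD, one_mul]
    push_cast
    rfl

/-- one step of the map, for residue zero -/
lemma F_zero (hD : 2 ≤ D) {x : ℕ} (h : f D (x : ℤ) = 0) : ((F D x : ℕ) : ℤ) = G D x := by
  have : NeZero D := ⟨by omega⟩
  have h1 : (D : ℤ) ∣ (x : ℤ) := by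
    rw [← ZMod.intCast_zmod_eq_zero_iff_dvd]; exact h
  have h2 : D ∣ x := by exact_mod_cast h1
  have h3 : x % D = 0 := Nat.mod_eq_zero_of_dvd h2
  have e : F D x = x / D := by rw [F, if_pos h3]
  have h4 := G_mul hD (x : ℤ)
  unfold dl bt at h4
  rw [if_pos h, if_pos h, pow_zero, one_mul, add_zero] at h4
  obtain ⟨k, rfl⟩ := h2
  have hD0 : 0 < D := by omega
  rw [e, Nat.mul_div_cancel_left _ hD0]
  have hDz : (D : ℤ) ≠ 0 := by
    have : D ≠ 0 := by omega
    exact_mod_cast this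
  apply mul_left_cancel₀ hDz
  rw [h4]
  push_cast
  ring

/-- one step of the map, for the other residues -/
lemma F_ne (hD : 2 ≤ D) {x : ℕ} (h : f D (x : ℤ) ≠ 0) : ((F D x : ℕ) : ℤ) = D * G D x := by
  have : NeZero D := ⟨by omega⟩
  have hc : f D (x : ℤ) = ((x : ℕ) : ZMod D) := by simp [f]
  have h3 : x % D ≠ 0 := by
    intro h0
    apply h
    rw [hc, ZMod.natCast_eq_zero_iff]
    exact Nat.dvd_of_mod_eq_zero h0
  have hv : (f D (x : ℤ)).val = x % D := by rw [hc, ZMod.val_natCast]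
  have h4 := G_mul hD (x : ℤ)
  rw [h4]
  unfold dl bt
  rw [if_neg h, if_neg h, pow_one]
  by_cases h1 : f D (x : ℤ) = -1
  · rw [if_pos h1]
    have h5 : x % D = D - 1 := by
      rw [← hv, h1]
      obtain ⟨k, rfl⟩ : ∃ k, D = k + 1 := ⟨D - 1, by omega⟩
      rw [ZMod.val_neg_one]
      omega
    rw [F, if_neg h3, if_pos h5]
    push_cast
    ring
  · rw [if_neg h1]
    have h5 : x % D ≠ D - 1 := by
      intro h6
      apply h1
      rw [hc]
      have h7 : ((x % D : ℕ) : ZMod D) = ((x : ℕ) : ZMod D) := ZMod.natCast_mod x D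
      rw [← h7, h6, Nat.cast_sub (by omega)]
      simp
    rw [F, if_neg h3, if_neg h5, hv]
    have h6 : x % D ≤ (D + 1) * x := (Nat.mod_le _ _).trans (Nat.le_mul_of_pos_left _ (by omega))
    rw [Nat.cast_sub h6]
    push_cast
    ring

lemma F_F (hD : 2 ≤ D) {x : ℕ} (h : f D (x : ℤ) ≠ 0) : ((F D (F D x) : ℕ) : ℤ) = G D x := by
  have h1 := F_ne hD h
  have h2 : f D ((F D x : ℕ) : ℤ) = 0 := by
    rw [h1]; unfold f; simp
  rw [F_zero hD h2]
  have h3 := G_mul hD ((F D x : ℕ) : ℤ)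
  unfold dl bt at h3
  rw [if_pos h2, if_pos h2, pow_zero, one_mul, add_zero, h1] at h3
  have hDz : (D : ℤ) ≠ 0 := by
    have : D ≠ 0 := by omega
    exact_mod_cast this
  rw [h1]
  exact mul_left_cancel₀ hDz h3

/-- times of the shortened orbit -/
noncomputable def ph (D x : ℕ) : ℕ → ℕ
  | 0 => 0
  | k + 1 => ph D x k + (if f D (((F D)^[ph D x k] x : ℕ) : ℤ) = 0 then 1 else 2)

lemma G_iter (hD : 2 ≤ D) (x k : ℕ) : (G D)^[k] (x : ℤ) = (((F D)^[ph D x k] x : ℕ) : ℤ) := by
  induction k with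
  | zero => rfl
  | succ k ih =>
    rw [Function.iterate_succ_apply', ih, ph]
    by_cases h : f D (((F D)^[ph D x k] x : ℕ) : ℤ) = 0
    · rw [if_pos h, Function.iterate_succ_apply', F_zero hD h]
    · rw [if_neg h, show ph D x k + 2 = ph D x k + 1 + 1 by ring, Function.iterate_succ_apply',
        Function.iterate_succ_apply', F_F hD h]

lemma ph_lt (D x k : ℕ) : ph D x k < ph D x (k + 1) := by
  rw [ph]; split_ifs <;> omega

lemma ph_ge (D x k : ℕ) : k ≤ ph D x k := by
  induction k with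
  | zero => exact Nat.zero_le _
  | succ k ih => have := ph_lt D x k; omega

lemma ph_le (D x k : ℕ) : ph D x k ≤ 2 * k := by
  induction k with
  | zero => exact le_rfl
  | succ k ih => rw [ph]; split_ifs <;> omega

/-- the residues of the shortened orbit are read off from the residues of the orbit -/
lemma decode (hD : 2 ≤ D) (x : ℕ) {n i j : ℕ}
    (h : Eqv (fun k => (((F D)^[k] x : ℕ) : ZMod D)) (2 * n) (ph D x i) (ph D x j)) :
    Eqv (F.wd (f D) (G D) x) n i j := by
  have hf : ∀ k, f D (((F D)^[k] x : ℕ) : ℤ) = (((F D)^[k] x : ℕ) : ZMod D) := by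
    intro k; simp [f]
  have key : ∀ m, m ≤ n → ∃ d, d ≤ 2 * m ∧ ph D x (i + m) = ph D x i + d ∧
      ph D x (j + m) = ph D x j + d := by
    intro m
    induction m with
    | zero => intro _; exact ⟨0, le_rfl, rfl, rfl⟩
    | succ m ih =>
      intro hm
      obtain ⟨d, hd, h1, h2⟩ := ih (by omega)
      have h3 := h d (by omega)
      simp only at h3
      rw [← h1, ← h2, ← hf, ← hf] at h3
      rw [← add_assoc, ← add_assoc, ph, ph, h3]
      by_cases h5 : f D (((F D)^[ph D x (j + m)] x : ℕ) : ℤ) = 0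
      · rw [if_pos h5]
        exact ⟨d + 1, by omega, by omega, by omega⟩
      · rw [if_neg h5]
        exact ⟨d + 2, by omega, by omega, by omega⟩
  intro m hm
  obtain ⟨d, hd, h1, h2⟩ := key m hm.le
  have h3 := h d (by omega)
  simp only at h3
  unfold F.wd
  rw [G_iter hD, G_iter hD, hf, hf, h1, h2]
  exact h3

/-- if the factor of `w` at `i` is determined by the factor of `u` at `φ i`, then `w` has at most
as many factors as `u`, in windows -/
lemma wc_le_of_dep {α β : Type*} [Finite β] {w : ℕ → α} {u : ℕ → β} {n m H H' : ℕ} (φ : ℕ → ℕ)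
    (hφ : ∀ i, i + n ≤ H → φ i + m ≤ H')
    (h : ∀ i j, Eqv u m (φ i) (φ j) → Eqv w n i j) : F.wc w H n ≤ F.wc u H' m := by
  classical
  set g : (Fin m → β) → (Fin n → α) := fun v =>
    if hv : ∃ i, fac u m (φ i) = v then fac w n hv.choose else fac w n 0 with hg
  have hsub : (fun i => fac w n i) '' {i | i + n ≤ H}
      ⊆ g '' ((fun i => fac u m i) '' {i | i + m ≤ H'}) := by
    rintro _ ⟨i, hi, rfl⟩
    refine ⟨fac u m (φ i), ⟨φ i, hφ i hi, rfl⟩, ?_⟩
    have hv : ∃ j, fac u m (φ j) = fac u m (φ i) := ⟨i, rfl⟩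
    simp only [hg]
    rw [dif_pos hv]
    exact fac_eq.2 (h _ _ (fac_eq.1 hv.choose_spec))
  unfold F.wc
  exact (Set.ncard_le_ncard hsub (Set.toFinite _)).trans (Set.ncard_image_le (Set.toFinite _))

/-- the iterates of `F_D` are those of the shortened map and `D` times those -/
lemma F_iter (hD : 2 ≤ D) (z j : ℕ) : ∃ k, (((F D)^[j] z : ℕ) : ℤ) = (G D)^[k] (z : ℤ) ∨
    (((F D)^[j] z : ℕ) : ℤ) = D * (G D)^[k] (z : ℤ) := by
  induction j with
  | zero => exact ⟨0, Or.inl rfl⟩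
  | succ j ih =>
    obtain ⟨k, h | h⟩ := ih
    · by_cases h0 : f D (((F D)^[j] z : ℕ) : ℤ) = 0
      · refine ⟨k + 1, Or.inl ?_⟩
        rw [Function.iterate_succ_apply', F_zero hD h0, h, Function.iterate_succ_apply']
      · refine ⟨k + 1, Or.inr ?_⟩
        rw [Function.iterate_succ_apply', F_ne hD h0, h, Function.iterate_succ_apply']
    · refine ⟨k, Or.inl ?_⟩
      have h0 : f D (((F D)^[j] z : ℕ) : ℤ) = 0 := by rw [h]; unfold f; simp
      have h1 := F_zero hD h0
      have h3 := G_mul hD (((F D)^[j] z : ℕ) : ℤ)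
      unfold dl bt at h3
      rw [if_pos h0, if_pos h0, pow_zero, one_mul, add_zero] at h3
      rw [Function.iterate_succ_apply', h1]
      have hDz : (D : ℤ) ≠ 0 := by
        have : D ≠ 0 := by omega
        exact_mod_cast this
      apply mul_left_cancel₀ hDz
      rw [h3, h]

end

/-- All scales: for every `A` there is `K` such that, for all positive integers `x`
and `1 ≤ M ≤ N` with `x ≤ 2 ^ N`: if for `M ≤ n ≤ K N` there are at most `A n` different blocks of
`n` consecutive residues modulo `D` among the first `K N` terms of the orbit of `x` under `F_D`,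
then the orbit reaches, after at most `K N` steps, a cycle of length at most `K M` with elements
at most `2 ^ (K M)`. -/
theorem all_scales (D : ℕ) (hD : 2 ≤ D) (A : ℝ) : ∃ K : ℕ, ∀ x M N : ℕ, 1 ≤ x → 1 ≤ M → M ≤ N →
    x ≤ 2 ^ N →
    (∀ n : ℕ, M ≤ n → n ≤ K * N → (blocksUpTo D x (K * N) n : ℝ) ≤ A * n) →
    ∃ i ≤ K * N, (∃ k, 1 ≤ k ∧ k ≤ K * M ∧ (F D)^[k] ((F D)^[i] x) = (F D)^[i] x) ∧
      ∀ j, (F D)^[j] ((F D)^[i] x) ≤ 2 ^ (K * M) := by
  have : NeZero D := ⟨by omega⟩
  obtain ⟨K, hK, h⟩ := F.enter bd_thm su_thm kp_thm (T hD) (2 * A)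
  refine ⟨2 * K + D, fun x M N hx0 hM hMN hx hcx => ?_⟩
  set K' := 2 * K + D with hK'
  have hKN : 2 * (K * N) ≤ K' * N := by
    rw [hK']
    have : (2 * K + D) * N = 2 * (K * N) + D * N := by ring
    omega
  have hKM : 2 * (K * M) + D ≤ K' * M := by
    rw [hK']
    have : (2 * K + D) * M = 2 * (K * M) + D * M := by ring
    have : D * 1 ≤ D * M := Nat.mul_le_mul_left _ hM
    omega
  obtain ⟨i, hi, hz, hper, habs⟩ := h 1 (f D) (G D) (mp hD) x M N hM hMN (by
      simp only [Int.cast_one, abs_one]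
      exact Real.one_le_exp (by positivity)) (by
      have h1 : |(((x : ℕ) : ℤ) : ℝ)| ≤ 2 ^ N := by
        rw [Int.cast_natCast, abs_of_nonneg (by positivity)]
        exact_mod_cast hx
      refine h1.trans ?_
      have h2 : (2 : ℝ) ≤ Real.exp 1 := by
        have := Real.add_one_le_exp (1 : ℝ)
        linarith
      calc (2 : ℝ) ^ N ≤ Real.exp 1 ^ N := by gcongr
        _ = Real.exp N := by rw [← Real.exp_nat_mul, mul_one]) (by
      intro m hm1 hm2
      have h1 : F.wc (F.wd (f D) (G D) x) (K * N) m ≤ blocksUpTo D x (K' * N) (2 * m) := by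
        refine wc_le_of_dep (u := fun k => (((F D)^[k] x : ℕ) : ZMod D)) (ph D x) (fun i hi => ?_)
          (fun i j hij => decode hD x hij)
        have := ph_le D x i
        omega
      have h2 := hcx (2 * m) (by omega) (by omega)
      push_cast at h2
      have h3 : (F.wc (F.wd (f D) (G D) x) (K * N) m : ℝ) ≤ blocksUpTo D x (K' * N) (2 * m) := by
        exact_mod_cast h1
      linarith)
  simp only [Int.cast_one, abs_one, Real.log_one, zero_add] at hper habs
  have hzC := G_iter hD x i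
  rw [hzC] at hz hper habs
  set z : ℕ := (F D)^[ph D x i] x with hzd
  set π := Function.minimalPeriod (G D) (z : ℤ) with hπ
  have hπ1 : 1 ≤ π := Function.minimalPeriod_pos_of_mem_periodicPts hz
  have hπK : π ≤ K * M := by exact_mod_cast hper
  have hzπ : (G D)^[π] (z : ℤ) = z := Function.iterate_minimalPeriod
  refine ⟨ph D x i, ?_, ?_, ?_⟩
  · have := ph_le D x i
    omega
  · refine ⟨ph D z π, hπ1.trans (ph_ge D z π), ?_, ?_⟩
    · have := ph_le D z π
      omega
    · rw [← hzd]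
      have h1 := G_iter hD z π
      rw [hzπ] at h1
      exact_mod_cast h1.symm
  · intro j
    rw [← hzd]
    have hb : ∀ k, |(G D)^[k] (z : ℤ)| ≤ 2 ^ (2 * (K * M)) := by
      intro k
      have h1 := habs k
      have h2 : Real.exp ((K : ℝ) * M) ≤ ((2 ^ (2 * (K * M)) : ℕ) : ℝ) := by
        have h3 : Real.exp 1 ≤ 4 := by
          have := Real.exp_one_lt_d9
          linarith
        calc Real.exp ((K : ℝ) * M) = Real.exp 1 ^ (K * M) := by
              rw [← Real.exp_nat_mul]; push_cast; ring_nf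
          _ ≤ 4 ^ (K * M) := by gcongr
          _ = ((2 ^ (2 * (K * M)) : ℕ) : ℝ) := by
              rw [pow_mul 2 2 (K * M)]; norm_num
      exact_mod_cast h1.trans h2
    have h4 : (D : ℤ) * 2 ^ (2 * (K * M)) ≤ 2 ^ (K' * M) := by
      have h5 : (D : ℤ) ≤ 2 ^ D := by
        exact_mod_cast (Nat.lt_two_pow_self (n := D)).le
      calc (D : ℤ) * 2 ^ (2 * (K * M)) ≤ 2 ^ D * 2 ^ (2 * (K * M)) := by gcongr
        _ = 2 ^ (2 * (K * M) + D) := by ring
        _ ≤ 2 ^ (K' * M) := pow_le_pow_right₀ (by norm_num) hKM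
    have h5 : (0 : ℤ) ≤ 2 ^ (2 * (K * M)) := by positivity
    have hD1 : (1 : ℤ) ≤ D := by exact_mod_cast (by omega : 1 ≤ D)
    have h6 : (((F D)^[j] z : ℕ) : ℤ) ≤ 2 ^ (K' * M) := by
      obtain ⟨k, h1 | h1⟩ := F_iter hD z j
      · rw [h1]
        have := (abs_le.1 (hb k)).2
        nlinarith
      · rw [h1]
        have := (abs_le.1 (hb k)).2
        nlinarith
    exact_mod_cast h6

/-- One scale: for every `A` there is `K` such that, for all `N ≥ K` and `1 ≤ x ≤ 2 ^ N`: if at most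
`A N` different blocks of `N` consecutive residues occur among the first `N ^ K` terms of the orbit
of `x`, then the orbit reaches, after at most `N ^ K` steps, a cycle of length at most `N ^ K`, and
all its terms are at most `2 ^ (K N)`. -/
theorem one_scale (D : ℕ) (hD : 2 ≤ D) (A : ℝ) : ∃ K : ℕ, ∀ x N : ℕ, K ≤ N → 1 ≤ x → x ≤ 2 ^ N →
    (blocksUpTo D x (N ^ K) N : ℝ) ≤ A * N →
    (∃ i ≤ N ^ K, ∃ k, 1 ≤ k ∧ k ≤ N ^ K ∧ (F D)^[k] ((F D)^[i] x) = (F D)^[i] x) ∧
      ∀ j, (F D)^[j] x ≤ 2 ^ (K * N) := by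
  have : NeZero D := ⟨by omega⟩
  obtain ⟨K, hK, h⟩ := Pool.Agent.TH932.S2.G.single_map (T hD) (3 * |A|) 0 3
  refine ⟨2 * K + 4 + D, fun x N hN hx0 hx hcx => ?_⟩
  set K' := 2 * K + 4 + D with hK'
  set n := N / 2 with hn
  have hn1 : K ≤ n := by omega
  have hn2 : 2 * n ≤ N := by omega
  have hn3 : N ≤ 3 * n := by omega
  have hn4 : N ≤ 2 * n + 1 := by omega
  have hpow : 4 * n ^ K + 4 ≤ N ^ K' := by
    have h1 : n ^ K ≤ N ^ K := Nat.pow_le_pow_left (by omega) K
    have h2 : N ^ K * N ^ 2 ≤ N ^ K' := by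
      rw [← pow_add]
      exact Nat.pow_le_pow_right (by omega) (by omega)
    have h3 : 16 ≤ N ^ 2 := by
      have : 4 ≤ N := by omega
      calc 16 = 4 ^ 2 := by norm_num
        _ ≤ N ^ 2 := Nat.pow_le_pow_left this 2
    have h4 : 1 ≤ N ^ K := Nat.one_le_pow _ _ (by omega)
    have h5 : N ^ K * 16 ≤ N ^ K * N ^ 2 := Nat.mul_le_mul_left _ h3
    omega
  obtain ⟨i, j, hij, hj, he, hb⟩ := h n hn1 1 (f D) (G D) (mp hD) (by simp) (x : ℤ) (by
      have h1 : |(((x : ℕ) : ℤ) : ℝ)| ≤ 2 ^ N := by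
        rw [Int.cast_natCast, abs_of_nonneg (by positivity)]
        exact_mod_cast hx
      refine h1.trans ?_
      have h2 : (2 : ℝ) ≤ Real.exp 1 := by
        have := Real.add_one_le_exp (1 : ℝ)
        linarith
      have h3 : (N : ℝ) ≤ 3 * n := by exact_mod_cast hn3
      calc (2 : ℝ) ^ N ≤ Real.exp 1 ^ N := by gcongr
        _ = Real.exp N := by rw [← Real.exp_nat_mul, mul_one]
        _ ≤ Real.exp (3 * n) := Real.exp_le_exp.2 h3) (by
      have h1 : F.wc (F.wd (f D) (G D) x) (n ^ K) n ≤ blocksUpTo D x (N ^ K') N := by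
        refine wc_le_of_dep (u := fun k => (((F D)^[k] x : ℕ) : ZMod D)) (ph D x) (fun i hi => ?_)
          (fun i j hij => decode hD x (hij.mono hn2))
        have := ph_le D x i
        omega
      have h2 : (F.wc (F.wd (f D) (G D) x) (n ^ K) n : ℝ) ≤ blocksUpTo D x (N ^ K') N := by
        exact_mod_cast h1
      have h3 : A * (N : ℝ) ≤ |A| * (3 * n) := by
        have h4 := le_abs_self A
        have h5 : (N : ℝ) ≤ 3 * n := by exact_mod_cast hn3
        calc A * (N : ℝ) ≤ |A| * N := by gcongr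
          _ ≤ |A| * (3 * n) := by gcongr
      linarith)
  have hzC := G_iter hD x i
  set z : ℕ := (F D)^[ph D x i] x with hz
  have hzπ : (G D)^[j - i] (z : ℤ) = z := by
    rw [← hzC, ← Function.iterate_add_apply, Nat.sub_add_cancel hij.le]
    exact he.symm
  refine ⟨⟨ph D x i, ?_, ph D z (j - i), ?_, ?_, ?_⟩, ?_⟩
  · have := ph_le D x i
    omega
  · have := ph_ge D z (j - i)
    omega
  · have := ph_le D z (j - i)
    omega
  · rw [← hz]
    have h1 := G_iter hD z (j - i)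
    rw [hzπ] at h1
    exact_mod_cast h1.symm
  · intro l
    have hbb : ∀ k, |(G D)^[k] (x : ℤ)| ≤ 2 ^ (2 * (K * n)) := by
      intro k
      have h1 := hb k
      have h2 : Real.exp ((K : ℝ) * n) ≤ ((2 ^ (2 * (K * n)) : ℕ) : ℝ) := by
        have h3 : Real.exp 1 ≤ 4 := by
          have := Real.exp_one_lt_d9
          linarith
        calc Real.exp ((K : ℝ) * n) = Real.exp 1 ^ (K * n) := by
              rw [← Real.exp_nat_mul]; push_cast; ring_nf
          _ ≤ 4 ^ (K * n) := by gcongr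
          _ = ((2 ^ (2 * (K * n)) : ℕ) : ℝ) := by
              rw [pow_mul 2 2 (K * n)]; norm_num
      exact_mod_cast h1.trans h2
    have hKn : 2 * (K * n) + D ≤ K' * N := by
      have h1 : K * n ≤ K * N := Nat.mul_le_mul_left _ (by omega)
      have h2 : K' * N = 2 * (K * N) + 4 * N + D * N := by rw [hK']; ring
      have h3 : D * 1 ≤ D * N := Nat.mul_le_mul_left _ (by omega)
      omega
    have h4 : (D : ℤ) * 2 ^ (2 * (K * n)) ≤ 2 ^ (K' * N) := by
      have h5 : (D : ℤ) ≤ 2 ^ D := by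
        exact_mod_cast (Nat.lt_two_pow_self (n := D)).le
      calc (D : ℤ) * 2 ^ (2 * (K * n)) ≤ 2 ^ D * 2 ^ (2 * (K * n)) := by gcongr
        _ = 2 ^ (2 * (K * n) + D) := by ring
        _ ≤ 2 ^ (K' * N) := pow_le_pow_right₀ (by norm_num) hKn
    have h5 : (0 : ℤ) ≤ 2 ^ (2 * (K * n)) := by positivity
    have hD1 : (1 : ℤ) ≤ D := by exact_mod_cast (by omega : 1 ≤ D)
    have h6 : (((F D)^[l] x : ℕ) : ℤ) ≤ 2 ^ (K' * N) := by
      obtain ⟨k, h1 | h1⟩ := F_iter hD x l
      · rw [h1]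
        have := (abs_le.1 (hbb k)).2
        nlinarith
      · rw [h1]
        have := (abs_le.1 (hbb k)).2
        nlinarith
    exact_mod_cast h6

/-- Descent in logarithmic time. -/
theorem log_descent (D : ℕ) (hD : 2 ≤ D) (A R : ℝ) : ∃ K : ℕ, 1 ≤ K ∧ ∀ x : ℕ, 1 ≤ x →
    (∀ i : ℕ, (i : ℝ) ≤ K * Real.log x → K < (F D)^[i] x) →
    ∃ m : ℕ, 1 ≤ m ∧ R ≤ m ∧ R * m ≤ Real.log x ∧ ∀ N : ℕ, m ≤ N → (N : ℝ) ≤ R * m →
      A * N < blocksUpTo D x ⌊K * Real.log x⌋₊ N := by
  have : NeZero D := ⟨by omega⟩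
  obtain ⟨K, hK1, hK⟩ := Pool.Agent.TH932.S2.G.desc (T hD) (3 * |A|) (2 * max R 1)
  refine ⟨2 * K + 2, by omega, fun x hx1 hx => ?_⟩
  have hKr : (0 : ℝ) ≤ K := Nat.cast_nonneg K
  have hxr : (1 : ℝ) ≤ x := by exact_mod_cast hx1
  have hlog0 : 0 ≤ Real.log x := Real.log_nonneg hxr
  have hx2 : (2 : ℝ) ≤ x := by
    have h1 := hx 0 (by push_cast; positivity)
    simp only [Function.iterate_zero, id_eq] at h1
    exact_mod_cast (by omega : 2 ≤ x)
  have hlog : (1 / 2 : ℝ) ≤ Real.log x := by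
    have h1 := Real.log_two_gt_d9
    have h2 := Real.log_le_log (by norm_num) hx2
    linarith
  have hle : 2 * ((K : ℝ) * Real.log x) + 1 ≤ ((2 * K + 2 : ℕ) : ℝ) * Real.log x := by
    push_cast
    linarith
  have habs : |(((x : ℕ) : ℤ) : ℝ)| = x := by
    rw [Int.cast_natCast, abs_of_nonneg (by positivity)]
  obtain ⟨m, h1, h2, h3, h4⟩ := hK (f D) (G D) (mp hD) x (fun i hi => by
    rw [habs] at hi
    have h5 := hx (ph D x i) (by
      have h6 : ((ph D x i : ℕ) : ℝ) ≤ 2 * i := by exact_mod_cast ph_le D x i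
      linarith)
    rw [G_iter hD, abs_of_nonneg (by positivity)]
    exact_mod_cast (by omega : K < (F D)^[ph D x i] x))
  rw [habs] at h3 h4
  have hmr : (0 : ℝ) ≤ m := Nat.cast_nonneg m
  have hR1 : R ≤ max R 1 := le_max_left _ _
  have hR2 : (1 : ℝ) ≤ max R 1 := le_max_right _ _
  refine ⟨2 * m, by omega, ?_, ?_, fun N hN1 hN2 => ?_⟩
  · push_cast
    linarith
  · push_cast
    have : R * (2 * m) ≤ max R 1 * (2 * m) := by gcongr
    linarith
  · set n := N / 2 with hn
    have hn1 : m ≤ n := by omega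
    have hn2 : 2 * n ≤ N := by omega
    have hn3 : N ≤ 3 * n := by omega
    have hn4 : N ≤ 2 * n + 1 := by omega
    have h5 := h4 n hn1 (by
      push_cast at hN2
      have h6 : (2 : ℝ) * n ≤ N := by exact_mod_cast hn2
      have : R * (2 * m) ≤ max R 1 * (2 * m) := by gcongr
      have h7 : 0 ≤ max R 1 * (m : ℝ) := by positivity
      linarith)
    have h6 : F.wc (F.wd (f D) (G D) x) ⌊(K : ℝ) * Real.log x⌋₊ n ≤
        blocksUpTo D x ⌊((2 * K + 2 : ℕ) : ℝ) * Real.log x⌋₊ N := by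
      refine wc_le_of_dep (u := fun k => (((F D)^[k] x : ℕ) : ZMod D)) (ph D x) (fun i hi => ?_)
        (fun i j hij => decode hD x (hij.mono hn2))
      apply Nat.le_floor
      have h7 := ph_le D x i
      have h8 : ((i + n : ℕ) : ℝ) ≤ (K : ℝ) * Real.log x :=
        le_trans (by exact_mod_cast hi) (Nat.floor_le (by positivity))
      have h9 : ((ph D x i + N : ℕ) : ℝ) ≤ 2 * ((i + n : ℕ) : ℝ) + 1 := by
        exact_mod_cast (by omega : ph D x i + N ≤ 2 * (i + n) + 1)
      linarith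
    have h7 : A * (N : ℝ) ≤ |A| * (3 * n) := by
      have h8 := le_abs_self A
      have h9 : (N : ℝ) ≤ 3 * n := by exact_mod_cast hn3
      calc A * (N : ℝ) ≤ |A| * N := by gcongr
        _ ≤ |A| * (3 * n) := by gcongr
    have h8 : (F.wc (F.wd (f D) (G D) x) ⌊(K : ℝ) * Real.log x⌋₊ n : ℝ) ≤
        blocksUpTo D x ⌊((2 * K + 2 : ℕ) : ℝ) * Real.log x⌋₊ N := by exact_mod_cast h6
    linarith

lemma blocksUpTo_shift {D : ℕ} (hD : 2 ≤ D) (x : ℕ) {i H' H : ℕ} (h : i + H' ≤ H) (N : ℕ) :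
    blocksUpTo D ((F D)^[i] x) H' N ≤ blocksUpTo D x H N := by
  have : NeZero D := ⟨by omega⟩
  unfold blocksUpTo
  apply Set.ncard_le_ncard _ (Set.toFinite _)
  rintro _ ⟨a, ha, rfl⟩
  refine ⟨a + i, ?_, ?_⟩
  · simp only [Set.mem_ofPred_eq] at ha ⊢
    omega
  · funext j
    simp only
    rw [← Function.iterate_add_apply, add_right_comm]

lemma F_iter_zero (D j : ℕ) : (F D)^[j] 0 = 0 := by
  induction j with
  | zero => rfl
  | succ j ih => rw [Function.iterate_succ_apply', ih]; simp [F]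

/-- **The dichotomy.** -/
theorem dichotomy (D : ℕ) (hD : 2 ≤ D) (A R : ℝ) : ∃ K : ℕ, ∀ x : ℕ, K < x →
    (∃ i : ℕ, (i : ℝ) ≤ K * Real.log x ∧
      (∃ k, 1 ≤ k ∧ k ≤ K ∧ (F D)^[k] ((F D)^[i] x) = (F D)^[i] x) ∧
        ∀ j, (F D)^[j] ((F D)^[i] x) ≤ K) ∨
    (∃ m : ℕ, 1 ≤ m ∧ R ≤ m ∧ R * m ≤ Real.log x ∧ ∀ N : ℕ, m ≤ N → (N : ℝ) ≤ R * m →
      A * N < blocksUpTo D x ⌊K * Real.log x⌋₊ N) := by
  obtain ⟨K1, hK11, hK1⟩ := log_descent D hD A R
  obtain ⟨K3, hK3⟩ := one_scale D hD A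
  -- bounded orbits
  have hb : ∀ y : ℕ, ∃ c : ℕ, (∃ B : ℕ, ∀ j, (F D)^[j] y ≤ B) → ∃ i k, i ≤ c ∧ 1 ≤ k ∧ k ≤ c ∧
      (F D)^[k] ((F D)^[i] y) = (F D)^[i] y ∧ ∀ j, (F D)^[j] ((F D)^[i] y) ≤ c := by
    intro y
    by_cases hB : ∃ B : ℕ, ∀ j, (F D)^[j] y ≤ B
    · obtain ⟨B, hB⟩ := hB
      have hni : ¬ Function.Injective fun j => (F D)^[j] y := by
        intro hinj
        have h1 : (Set.range fun j => (F D)^[j] y) ⊆ Set.Iic B := by
          rintro _ ⟨j, rfl⟩
          exact hB j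
        exact Set.infinite_range_of_injective hinj ((Set.finite_Iic _).subset h1)
      have h2 : ∃ a b, a < b ∧ (F D)^[a] y = (F D)^[b] y := by
        simp only [Function.Injective] at hni
        push Not at hni
        obtain ⟨a, b, hab, hne⟩ := hni
        rcases Nat.lt_or_ge a b with h | h
        · exact ⟨a, b, h, hab⟩
        · exact ⟨b, a, by omega, hab.symm⟩
      obtain ⟨a, b, hab, he⟩ := h2
      refine ⟨b + B, fun _ => ⟨a, b - a, by omega, by omega, by omega, ?_, fun j => ?_⟩⟩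
      · rw [← Function.iterate_add_apply, Nat.sub_add_cancel hab.le]
        exact he.symm
      · rw [← Function.iterate_add_apply]
        have := hB (j + a)
        omega
    · exact ⟨0, fun h => absurd h hB⟩
  choose c hc using hb
  set K2 : ℕ := ∑ y ∈ Finset.range (K1 + 1), c y with hK2
  have hcK2 : ∀ y : ℕ, y ≤ K1 → c y ≤ K2 := fun y hy =>
    Finset.single_le_sum (f := c) (fun _ _ => Nat.zero_le _) (Finset.mem_range.2 (by omega))
  obtain ⟨r, hr⟩ := exists_nat_ge R
  set m0 : ℕ := K3 + K1 + r + 1 with hm0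
  obtain ⟨K4, hK4⟩ := exists_nat_ge (Real.exp (((r * m0) ^ K3 + r * m0 : ℕ) : ℝ))
  refine ⟨K1 + 2 * K2 + K4 + 1, fun x hx => ?_⟩
  set K : ℕ := K1 + 2 * K2 + K4 + 1 with hK
  have hKr : ((K1 + 2 * K2 + K4 + 1 : ℕ) : ℝ) = K := rfl
  push_cast at hKr
  have hK1r : (1 : ℝ) ≤ K1 := by exact_mod_cast hK11
  have hK2r : (0 : ℝ) ≤ K2 := Nat.cast_nonneg K2
  have hK4r : (0 : ℝ) ≤ K4 := Nat.cast_nonneg K4
  have hxr : (K : ℝ) < x := by exact_mod_cast hx
  have hx0 : (0 : ℝ) < x := by linarith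
  have hlog : (1 / 2 : ℝ) ≤ Real.log x := by
    have h1 := Real.log_two_gt_d9
    have h2 := Real.log_le_log (show (0 : ℝ) < 2 by norm_num) (by linarith : (2 : ℝ) ≤ x)
    linarith
  have hlog4 : (((r * m0) ^ K3 + r * m0 : ℕ) : ℝ) ≤ Real.log x := by
    rw [Real.le_log_iff_exp_le hx0]
    linarith
  have hlog0 : 0 ≤ Real.log x := by linarith
  have hKK : (K1 : ℝ) * Real.log x ≤ K * Real.log x := by
    have : (K1 : ℝ) ≤ K := by linarith
    gcongr
  by_cases h : ∀ i : ℕ, (i : ℝ) ≤ K1 * Real.log x → K1 < (F D)^[i] x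
  · right
    obtain ⟨m, h1, h2, h3, h4⟩ := hK1 x (by omega) h
    refine ⟨m, h1, h2, h3, fun N a b => (h4 N a b).trans_le ?_⟩
    have h5 := blocksUpTo_shift hD x (i := 0) (H' := ⌊(K1 : ℝ) * Real.log x⌋₊)
      (H := ⌊(K : ℝ) * Real.log x⌋₊) (by
        rw [zero_add]
        exact Nat.floor_le_floor hKK) N
    exact_mod_cast h5
  · push Not at h
    obtain ⟨i, hi, hy⟩ := h
    by_cases hbd : ∃ B : ℕ, ∀ j, (F D)^[j] ((F D)^[i] x) ≤ B
    · left
      obtain ⟨i', k, h1, h2, h3, h4, h5⟩ := hc _ hbd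
      have h6 := hcK2 _ hy
      refine ⟨i' + i, ?_, ⟨k, h2, by omega, ?_⟩, fun j => ?_⟩
      · have h7 : (i' : ℝ) ≤ K2 := by exact_mod_cast h1.trans h6
        push_cast
        have h8 : (K1 + 2 * K2 : ℝ) * Real.log x ≤ K * Real.log x := by
          have : (K1 + 2 * K2 : ℝ) ≤ K := by linarith
          gcongr
        nlinarith
      · rw [Function.iterate_add_apply (F D) i' i x]
        exact h4
      · rw [Function.iterate_add_apply (F D) i' i x]
        exact (h5 j).trans (by omega)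
    · right
      have hm1 : (1 : ℝ) ≤ m0 := by exact_mod_cast (by omega : 1 ≤ m0)
      have hrm : R * m0 ≤ r * m0 := by gcongr
      have hpos : (0 : ℝ) ≤ ((r * m0) ^ K3 : ℕ) := Nat.cast_nonneg _
      push_cast at hlog4 hpos
      refine ⟨m0, by omega, ?_, by linarith, fun N hN1 hN2 => ?_⟩
      · have : (r : ℝ) ≤ m0 := by exact_mod_cast (by omega : r ≤ m0)
        linarith
      · by_contra hcon
        push Not at hcon
        have hNr : N ≤ r * m0 := by
          have : (N : ℝ) ≤ r * m0 := hN2.trans hrm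
          exact_mod_cast this
        have hpow : N ^ K3 ≤ (r * m0) ^ K3 := Nat.pow_le_pow_left hNr K3
        have hsh := blocksUpTo_shift hD x (i := i) (H' := N ^ K3)
          (H := ⌊(K : ℝ) * Real.log x⌋₊) (by
            apply Nat.le_floor
            have h1 : ((N ^ K3 : ℕ) : ℝ) ≤ ((r : ℝ) * m0) ^ K3 := by exact_mod_cast hpow
            have h2 : (0 : ℝ) ≤ (r : ℝ) * m0 := by positivity
            have h3 : (K1 : ℝ) * Real.log x + Real.log x ≤ K * Real.log x := by
              have : (K1 : ℝ) + 1 ≤ K := by linarith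
              nlinarith
            rw [Nat.cast_add]
            linarith) N
        have hy1 : 1 ≤ (F D)^[i] x := by
          by_contra h0
          have h1 : (F D)^[i] x = 0 := by omega
          exact hbd ⟨0, fun j => by rw [h1, F_iter_zero]⟩
        obtain ⟨_, h2⟩ := hK3 ((F D)^[i] x) N (by omega) hy1 (by
          have h3 : N < 2 ^ N := Nat.lt_two_pow_self
          omega) (le_trans (by exact_mod_cast hsh) hcon)
        exact hbd ⟨_, h2⟩

/-- **Result.** Let `D ≥ 2`.

(1) If the orbit of the positive integer `x` under `F_D` is unbounded, then `p (n) / n` tends to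
infinity, where `p (n)` is the number of different blocks of `n` consecutive residues modulo `D` in
the orbit.

(2) For every `A` there is `K` such that, for all `N ≥ K` and `1 ≤ x ≤ 2 ^ N`: if at most `A N`
different blocks of `N` consecutive residues occur among the first `N ^ K` terms of the orbit of
`x`, then the orbit reaches, after at most `N ^ K` steps, a cycle of length at most `N ^ K`, and all
its terms are at most `2 ^ (K N)`.

(3) For every `A` there is `K` such that, for all positive integers `x` and `1 ≤ M ≤ N` with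
`x ≤ 2 ^ N`: if for `M ≤ n ≤ K N` there are at most `A n` different blocks of `n` consecutive
residues among the first `K N` terms of the orbit of `x`, then the orbit reaches, after at most
`K N` steps, a cycle of length at most `K M` with elements at most `2 ^ (K M)`.

(4) For all `A` and `R` there is `K` such that for every `x > K`: either the orbit of `x` reaches,
after at most `K log x` steps, a cycle of length at most `K` with elements at most `K`, or there is an
interval `[m, R m]` with `m ≥ R` and `R m ≤ log x` such that for all integers `N` in it more than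
`A N` different blocks of `N` consecutive residues occur among the first `K log x` terms of the
orbit of `x`. -/
theorem result (D : ℕ) (hD : 2 ≤ D) :
    (∀ x : ℕ, 1 ≤ x → (∀ R : ℕ, ∃ k, R < (F D)^[k] x) →
      Tendsto (fun n : ℕ => (blocks D x n : ℝ) / n) atTop atTop) ∧
    (∀ A : ℝ, ∃ K : ℕ, ∀ x N : ℕ, K ≤ N → 1 ≤ x → x ≤ 2 ^ N →
      (blocksUpTo D x (N ^ K) N : ℝ) ≤ A * N →
      (∃ i ≤ N ^ K, ∃ k, 1 ≤ k ∧ k ≤ N ^ K ∧ (F D)^[k] ((F D)^[i] x) = (F D)^[i] x) ∧
        ∀ j, (F D)^[j] x ≤ 2 ^ (K * N)) ∧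
    (∀ A : ℝ, ∃ K : ℕ, ∀ x M N : ℕ, 1 ≤ x → 1 ≤ M → M ≤ N → x ≤ 2 ^ N →
      (∀ n : ℕ, M ≤ n → n ≤ K * N → (blocksUpTo D x (K * N) n : ℝ) ≤ A * n) →
      ∃ i ≤ K * N, (∃ k, 1 ≤ k ∧ k ≤ K * M ∧ (F D)^[k] ((F D)^[i] x) = (F D)^[i] x) ∧
        ∀ j, (F D)^[j] ((F D)^[i] x) ≤ 2 ^ (K * M)) ∧
    (∀ A R : ℝ, ∃ K : ℕ, ∀ x : ℕ, K < x →
      (∃ i : ℕ, (i : ℝ) ≤ K * Real.log x ∧
        (∃ k, 1 ≤ k ∧ k ≤ K ∧ (F D)^[k] ((F D)^[i] x) = (F D)^[i] x) ∧
          ∀ j, (F D)^[j] ((F D)^[i] x) ≤ K) ∨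
      (∃ m : ℕ, 1 ≤ m ∧ R ≤ m ∧ R * m ≤ Real.log x ∧ ∀ N : ℕ, m ≤ N → (N : ℝ) ≤ R * m →
        A * N < blocksUpTo D x ⌊K * Real.log x⌋₊ N)) := by
  have : NeZero D := ⟨by omega⟩
  refine ⟨fun x hx1 hx => ?_, one_scale D hD, all_scales D hD, dichotomy D hD⟩
  rw [tendsto_atTop]
  intro A
  obtain ⟨K, hK⟩ := one_scale D hD A
  filter_upwards [eventually_ge_atTop K, eventually_ge_atTop x, eventually_gt_atTop 0]
    with N h1 h2 h3
  have hN : (0 : ℝ) < N := by exact_mod_cast h3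
  rw [le_div_iff₀ hN]
  by_contra hcon
  push Not at hcon
  have h4 : (blocksUpTo D x (N ^ K) N : ℝ) ≤ A * N := by
    have h5 : blocksUpTo D x (N ^ K) N ≤ blocks D x N := by
      unfold blocksUpTo blocks
      exact Set.ncard_le_ncard (Set.image_subset_range _ _) (Set.toFinite _)
    have : (blocksUpTo D x (N ^ K) N : ℝ) ≤ blocks D x N := by exact_mod_cast h5
    linarith
  obtain ⟨_, h5⟩ := hK x N h1 hx1
    ((Nat.lt_two_pow_self (n := x)).le.trans (Nat.pow_le_pow_right (by norm_num) h2)) h4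
  obtain ⟨k, hk⟩ := hx (2 ^ (K * N))
  have := h5 k
  omega

end Pool.Agent.Results.MP_5317dd_nt.SuperlinearDescent
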